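import Pool.Agent.H22.VM.Targets

/-!
# TU: the terminal bound for bounded coefficients
-/

set_option autoImplicit false

open Finset Polynomial

namespace Pool.Agent.H62.VM

open Pool.Agent.H22.VM

/-- the number of indices in a class -/
theorem card_cls {ι : Type} {p B a : ℕ} (hp : 1 < p) (haB : a ≤ B) (R : Finset ι) (r : ι → ℤ)
    (hinj : Set.InjOn r R) (hr : ∀ i ∈ R, 0 ≤ r i ∧ r i < (p : ℤ) ^ B) (ξ : ℤ) :
    (cls p R r a ξ).card ≤ p ^ (B - a) := by
  have hp0 : (0 : ℤ) < (p : ℤ) ^ a := by positivity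
  have hpB : (p : ℤ) ^ B = (p : ℤ) ^ a * (p : ℤ) ^ (B - a) := by
    rw [← pow_add]
    congr 1
    omega
  rw [← card_range (p ^ (B - a))]
  apply card_le_card_of_injOn (fun i => (r i / (p : ℤ) ^ a).toNat)
  · intro i hi
    have hi' := mem_filter.1 (mem_coe.1 hi)
    obtain ⟨h1, h2⟩ := hr i hi'.1
    rw [mem_coe, mem_range]
    have h3 : 0 ≤ r i / (p : ℤ) ^ a := Int.ediv_nonneg h1 hp0.le
    have h4 : r i / (p : ℤ) ^ a < (p : ℤ) ^ (B - a) := by
      apply Int.ediv_lt_of_lt_mul hp0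
      rw [mul_comm, ← hpB]
      exact h2
    have h5 : ((r i / (p : ℤ) ^ a).toNat : ℤ) < ((p ^ (B - a) : ℕ) : ℤ) := by
      rw [Int.toNat_of_nonneg h3]
      push_cast
      exact h4
    exact_mod_cast h5
  · intro i hi j hj hij
    have hi' := mem_filter.1 (mem_coe.1 hi)
    have hj' := mem_filter.1 (mem_coe.1 hj)
    dsimp only at hij
    have h3 : 0 ≤ r i / (p : ℤ) ^ a := Int.ediv_nonneg (hr i hi'.1).1 hp0.le
    have h3' : 0 ≤ r j / (p : ℤ) ^ a := Int.ediv_nonneg (hr j hj'.1).1 hp0.le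
    have h4 : r i / (p : ℤ) ^ a = r j / (p : ℤ) ^ a := by
      rw [← Int.toNat_of_nonneg h3, ← Int.toNat_of_nonneg h3', hij]
    have h5 : r i % (p : ℤ) ^ a = r j % (p : ℤ) ^ a := by
      apply Int.emod_emod_of_dvd _ (dvd_refl _) |>.symm.trans
      have h6 : r i ≡ r j [ZMOD (p : ℤ) ^ a] := by
        have h7 : ((p : ℤ) ^ a) ∣ r i - r j := by
          have := dvd_sub hi'.2 hj'.2
          have h8 : r i - ξ - (r j - ξ) = r i - r j := by ring
          rwa [h8] at this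
        exact (Int.modEq_iff_dvd.2 (by
          have := (dvd_neg.2 h7)
          rwa [neg_sub] at this))
      rw [h6]
      exact Int.emod_emod_of_dvd _ (dvd_refl _)
    have h6 : r i = r j := by
      rw [← Int.mul_ediv_add_emod (r i) ((p : ℤ) ^ a), ← Int.mul_ediv_add_emod (r j) ((p : ℤ) ^ a),
        h4, h5]
    exact hinj (mem_coe.2 hi'.1) (mem_coe.2 hj'.1) h6

theorem tu (hPH : T_PH) (hOR : T_OR) (hHO : T_HO) : T_TU := by
  classical
  intro p k B a b s s' L L' hp hkp hk hB ha hb hab hkbB hs hss' hL hL' hcond ι Ω _ w R r F hw hInv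
    hF hinj hr hms hms' ξ η hξη
  have hp1 : 1 < p := hp.one_lt
  have hP0 : (0 : ℝ) < p := by exact_mod_cast hp.pos
  have hP1 : (1 : ℝ) < p := by exact_mod_cast hp1
  set c : ℕ := k * b with hc
  have hac : a ≤ c := by
    have h1 : 3 * k * b = 3 * (k * b) := by ring
    rw [hc]
    omega
  have haB : a ≤ B := hac.trans hkbB
  have hbc : b ≤ c := by
    rw [hc]
    exact Nat.le_mul_of_pos_left b (by omega)
  have hbB : b ≤ B := hbc.trans hkbB
  have hs0 : 0 < s := by linarith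
  have hs'0 : 0 < s' := by linarith
  set W : ℝ := ∑ ω, w ω with hW
  have hW0 : 0 ≤ W := sum_nonneg fun ω _ => hw ω
  set J : Finset ι := cls p R r b η with hJ
  set Gj : ℕ → Ω → ℝ := fun j ω => ‖bs F (cls p R r c (ξ + (p : ℤ) ^ a * (j : ℤ))) ω‖ ^ 2 with hGj
  set G : Ω → ℝ := fun ω => ∑ j ∈ range (p ^ (c - a)), Gj j ω with hG
  set X : Ω → ℝ := fun ω => ‖bs F J ω‖ ^ (2 * (s - 1)) with hX
  set Y : ℝ := (p : ℝ) ^ (B - a) with hY
  set q : ℝ := (p : ℝ) ^ (c - a) with hq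
  have hY0 : 0 < Y := by positivity
  have hq0 : 0 < q := by positivity
  have hGj0 : ∀ j ω, 0 ≤ Gj j ω := fun j ω => by positivity
  have hG0 : ∀ ω, 0 ≤ G ω := fun ω => sum_nonneg fun j _ => hGj0 j ω
  have hX0 : ∀ ω, 0 ≤ X ω := fun ω => Real.rpow_nonneg (norm_nonneg _) _
  have hYq : q * (p : ℝ) ^ (B - c) = Y := by
    rw [hq, hY, ← pow_add]
    congr 1
    omega
  -- orthogonality
  have hor : mm w F (cls p R r a ξ) 1 J (s - 1) = ∑ ω, w ω * (G ω * X ω) := by
    rw [hOR p k (k * B) a c b ξ η hp hkp (by omega) ha hac le_rfl (Nat.mul_le_mul_left k hbB) hξη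
      ι Ω w R r F hInv (s - 1)]
    unfold mm
    rw [sum_comm]
    refine sum_congr rfl fun ω _ => ?_
    rw [hG]
    dsimp only
    rw [sum_mul, mul_sum]
    refine sum_congr rfl fun j _ => ?_
    rw [hGj, hX]
    dsimp only
    rw [mul_one, Real.rpow_two]
  -- the bad set
  set Bad : Finset Ω := univ.filter (fun ω => 2 * Y < G ω) with hBad
  have hcard : ∀ ω, ∑ i ∈ cls p R r a ξ, ‖F i ω‖ ^ 2 ≤ Y := by
    intro ω
    calc ∑ i ∈ cls p R r a ξ, ‖F i ω‖ ^ 2 ≤ ∑ i ∈ cls p R r a ξ, (1 : ℝ) := by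
          refine sum_le_sum fun i hi => ?_
          have h1 := hF i (mem_filter.1 hi).1 ω
          exact pow_le_one₀ (norm_nonneg _) h1
      _ = ((cls p R r a ξ).card : ℝ) := by simp
      _ ≤ ((p ^ (B - a) : ℕ) : ℝ) := by exact_mod_cast card_cls hp1 haB R r hinj hr ξ
      _ = Y := by rw [hY]; push_cast; rfl
  have hph := hPH p k B a c ξ hp hk hac hkbB hB ι Ω w R r F hw hInv hF hinj hr
  have hbadw : ∑ ω ∈ Bad, w ω ≤ W / q := by
    have h1 : Y ^ 2 * ∑ ω ∈ Bad, w ω ≤ Y * (p : ℝ) ^ (B - c) * W := by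
      refine le_trans ?_ hph
      rw [mul_sum]
      calc ∑ ω ∈ Bad, Y ^ 2 * w ω ≤ ∑ ω ∈ Bad, w ω * (∑ j ∈ range (p ^ (c - a)),
            ‖bs F (cls p R r c (ξ + (p : ℤ) ^ a * (j : ℤ))) ω‖ ^ 2 -
            ∑ i ∈ cls p R r a ξ, ‖F i ω‖ ^ 2) ^ 2 := by
            refine sum_le_sum fun ω hω => ?_
            have h2 : 2 * Y < G ω := (mem_filter.1 hω).2
            have h3 := hcard ω
            have h4 : Y ≤ G ω - ∑ i ∈ cls p R r a ξ, ‖F i ω‖ ^ 2 := by linarith
            rw [mul_comm]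
            apply mul_le_mul_of_nonneg_left _ (hw ω)
            exact pow_le_pow_left₀ hY0.le h4 2
        _ ≤ _ := sum_le_sum_of_subset_of_nonneg (subset_univ _)
            (fun ω _ _ => mul_nonneg (hw ω) (sq_nonneg _))
    rw [le_div_iff₀ hq0]
    have h2 : Y * (Y * (∑ ω ∈ Bad, w ω)) ≤ Y * ((p : ℝ) ^ (B - c) * W) := by nlinarith
    have h3 := le_of_mul_le_mul_left h2 hY0
    have h5 : (0 : ℝ) < (p : ℝ) ^ (B - c) := by positivity
    rw [← hYq] at h3
    have h4 : (p : ℝ) ^ (B - c) * ((∑ ω ∈ Bad, w ω) * q) ≤ (p : ℝ) ^ (B - c) * W := by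
      calc (p : ℝ) ^ (B - c) * ((∑ ω ∈ Bad, w ω) * q) = q * (p : ℝ) ^ (B - c) * ∑ ω ∈ Bad, w ω := by
            ring
        _ ≤ _ := h3
    exact le_of_mul_le_mul_left h4 h5
  -- moments
  set mJ : ℝ := mo w F s J with hmJ
  have hmJ0 : 0 ≤ mJ := sum_nonneg fun ω _ => mul_nonneg (hw ω) (Real.rpow_nonneg (norm_nonneg _) _)
  have hlam : (0 : ℝ) ≤ 1 - 1 / s := by
    rw [sub_nonneg, div_le_one hs0]
    linarith
  have hlam1 : 1 - 1 / s ≤ 1 := by
    have : 0 ≤ 1 / s := by positivity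
    linarith
  have hXeq : ∀ ω, (‖bs F J ω‖ ^ (2 * s)) ^ (1 - 1 / s) = X ω := by
    intro ω
    rw [← Real.rpow_mul (norm_nonneg _)]
    simp only [hX]
    congr 1
    field_simp
  have hgood : ∑ ω, w ω * X ω ≤ W ^ (1 / s) * mJ ^ (1 - 1 / s) := by
    have h1 := hHO Ω w (fun _ => 1) (fun ω => ‖bs F J ω‖ ^ (2 * s)) (1 - 1 / s) hw
      (fun _ => zero_le_one) (fun ω => Real.rpow_nonneg (norm_nonneg _) _) hlam hlam1
    simp only [Real.one_rpow, one_mul, mul_one, sub_sub_cancel] at h1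
    simp_rw [hXeq] at h1
    exact h1
  -- the moment of `G`
  have hGs' : ∑ ω, w ω * G ω ^ s' ≤ Real.exp L' * Y ^ s' * W := by
    have h1 : ∀ ω, G ω ^ s' ≤ q ^ (s' - 1) *
        ∑ j ∈ range (p ^ (c - a)), ‖bs F (cls p R r c (ξ + (p : ℤ) ^ a * (j : ℤ))) ω‖ ^ (2 * s') := by
      intro ω
      have h2 := Real.rpow_sum_le_const_mul_sum_rpow (range (p ^ (c - a))) (fun j => Gj j ω)
        (p := s') (by linarith)
      simp only [abs_of_nonneg (hGj0 _ ω), card_range] at h2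
      have h3 : (((p ^ (c - a) : ℕ) : ℝ)) = q := by
        rw [hq]
        push_cast
        rfl
      rw [h3] at h2
      refine h2.trans (le_of_eq ?_)
      congr 1
      refine sum_congr rfl fun j _ => ?_
      simp only [hGj]
      rw [← Real.rpow_two, ← Real.rpow_mul (norm_nonneg _)]
    calc ∑ ω, w ω * G ω ^ s' ≤ ∑ ω, w ω * (q ^ (s' - 1) *
        ∑ j ∈ range (p ^ (c - a)), ‖bs F (cls p R r c (ξ + (p : ℤ) ^ a * (j : ℤ))) ω‖ ^ (2 * s')) :=
          sum_le_sum fun ω _ => mul_le_mul_of_nonneg_left (h1 ω) (hw ω)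
      _ = q ^ (s' - 1) * ∑ j ∈ range (p ^ (c - a)),
          mo w F s' (cls p R r c (ξ + (p : ℤ) ^ a * (j : ℤ))) := by
          unfold mo
          rw [sum_comm, mul_sum]
          refine sum_congr rfl fun ω _ => ?_
          rw [mul_sum, mul_sum, mul_sum]
          refine sum_congr rfl fun j _ => ?_
          ring
      _ ≤ q ^ (s' - 1) * ∑ j ∈ range (p ^ (c - a)),
          (Real.exp L' * ((p : ℝ) ^ (B - c)) ^ s' * W) := by
          apply mul_le_mul_of_nonneg_left _ (by positivity)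
          exact sum_le_sum fun j _ => hms' c hkbB _
      _ = Real.exp L' * Y ^ s' * W := by
          rw [sum_const, card_range, nsmul_eq_mul, ← hYq, Real.mul_rpow hq0.le (by positivity)]
          have h3 : (((p ^ (c - a) : ℕ) : ℝ)) = q := by
            rw [hq]
            push_cast
            rfl
          rw [h3]
          have h4 : q ^ s' = q ^ (s' - 1) * q := by
            rw [Real.rpow_sub_one hq0.ne']
            field_simp
          rw [h4]
          ring
  -- restricted weight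
  set wb : Ω → ℝ := fun ω => if ω ∈ Bad then w ω else 0 with hwb
  have hwb0 : ∀ ω, 0 ≤ wb ω := by
    intro ω
    simp only [hwb]
    split_ifs
    · exact hw ω
    · exact le_rfl
  have hwble : ∀ ω, wb ω ≤ w ω := by
    intro ω
    simp only [hwb]
    split_ifs
    · exact le_rfl
    · exact hw ω
  have hwbs : ∀ f : Ω → ℝ, (∀ ω, 0 ≤ f ω) → ∑ ω, wb ω * f ω ≤ ∑ ω, w ω * f ω := fun f hf =>
    sum_le_sum fun ω _ => mul_le_mul_of_nonneg_right (hwble ω) (hf ω)
  have hwb1 : ∑ ω, wb ω ≤ W / q := by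
    refine le_trans (le_of_eq ?_) hbadw
    simp only [hwb]
    rw [sum_ite_mem, univ_inter]
  have hGsb : ∑ ω, wb ω * G ω ^ s ≤ Real.exp (L' * (s / s')) * Y ^ s * W * q ^ (-(1 - s / s')) := by
    have hla : 0 ≤ s / s' := by positivity
    have hla1 : s / s' ≤ 1 := (div_le_one hs'0).2 hss'.le
    have h1 := hHO Ω wb (fun _ => 1) (fun ω => G ω ^ s') (s / s') hwb0 (fun _ => zero_le_one)
      (fun ω => Real.rpow_nonneg (hG0 ω) _) hla hla1
    simp only [Real.one_rpow, one_mul, mul_one] at h1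
    have h2 : ∀ ω, (G ω ^ s') ^ (s / s') = G ω ^ s := by
      intro ω
      rw [← Real.rpow_mul (hG0 ω)]
      congr 1
      field_simp
    simp_rw [h2] at h1
    refine h1.trans ?_
    have h3 : (∑ ω, wb ω) ^ (1 - s / s') ≤ (W / q) ^ (1 - s / s') :=
      Real.rpow_le_rpow (sum_nonneg fun ω _ => hwb0 ω) hwb1 (by linarith)
    have h4 : (∑ ω, wb ω * G ω ^ s') ^ (s / s') ≤ (Real.exp L' * Y ^ s' * W) ^ (s / s') := by
      apply Real.rpow_le_rpow (sum_nonneg fun ω _ => mul_nonneg (hwb0 ω)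
        (Real.rpow_nonneg (hG0 ω) _)) _ hla
      exact (hwbs _ fun ω => Real.rpow_nonneg (hG0 ω) _).trans hGs'
    refine (mul_le_mul h3 h4 (Real.rpow_nonneg (sum_nonneg fun ω _ => mul_nonneg (hwb0 ω)
        (Real.rpow_nonneg (hG0 ω) _)) _) (Real.rpow_nonneg (by positivity) _)).trans (le_of_eq ?_)
    rw [Real.div_rpow hW0 hq0.le, Real.mul_rpow (by positivity) hW0,
      Real.mul_rpow (Real.exp_pos _).le (by positivity), ← Real.exp_mul,
      ← Real.rpow_mul hY0.le, Real.rpow_neg hq0.le]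
    have h5 : s' * (s / s') = s := by field_simp
    rw [h5]
    have h6 : W = W ^ (1 - s / s') * W ^ (s / s') := by
      rw [← Real.rpow_add' hW0 (by norm_num)]
      norm_num
    nth_rewrite 3 [h6]
    field_simp
  have hGs1 : (∑ ω, wb ω * G ω ^ s) ^ (1 / s) ≤ Y * W ^ (1 / s) := by
    have h1 : (∑ ω, wb ω * G ω ^ s) ^ (1 / s) ≤
        (Real.exp (L' * (s / s')) * Y ^ s * W * q ^ (-(1 - s / s'))) ^ (1 / s) :=
      Real.rpow_le_rpow (sum_nonneg fun ω _ => mul_nonneg (hwb0 ω)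
        (Real.rpow_nonneg (hG0 ω) _)) hGsb (by positivity)
    refine h1.trans ?_
    rw [Real.mul_rpow (by positivity) (by positivity), Real.mul_rpow (by positivity) hW0,
      Real.mul_rpow (by positivity) (by positivity), ← Real.exp_mul, ← Real.rpow_mul hY0.le,
      ← Real.rpow_mul hq0.le]
    have h2 : s * (1 / s) = 1 := by field_simp
    rw [h2, Real.rpow_one]
    have h3 : Real.exp (L' * (s / s') * (1 / s)) * q ^ (-(1 - s / s') * (1 / s)) ≤ 1 := by
      rw [Real.rpow_def_of_pos hq0, ← Real.exp_add, Real.exp_le_one_iff]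
      have h4 : L' * (s / s') * (1 / s) = L' / s' := by field_simp
      have h5 : -(1 - s / s') * (1 / s) = -(1 / s - 1 / s') := by
        field_simp
      rw [h4, h5]
      have h6 : Real.log q = ((c - a : ℕ) : ℝ) * Real.log p := by
        rw [hq, Real.log_pow]
      have h7 : (k * b / 4 : ℝ) ≤ ((c - a : ℕ) : ℝ) := by
        rw [Nat.cast_sub hac, hc]
        have h8 : (4 * a : ℝ) ≤ 3 * k * b := by exact_mod_cast hab
        push_cast
        linarith
      have h8 : (k * b / 4 : ℝ) * Real.log p ≤ Real.log q := by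
        rw [h6]
        exact mul_le_mul_of_nonneg_right h7 (Real.log_nonneg hP1.le)
      have h9 : 0 ≤ 1 / s - 1 / s' := by
        rw [sub_nonneg]
        exact one_div_le_one_div_of_le hs0 hss'.le
      have h10 := mul_le_mul_of_nonneg_right h8 h9
      linarith
    calc Real.exp (L' * (s / s') * (1 / s)) * Y * W ^ (1 / s) * q ^ (-(1 - s / s') * (1 / s))
        = (Real.exp (L' * (s / s') * (1 / s)) * q ^ (-(1 - s / s') * (1 / s))) *
          (Y * W ^ (1 / s)) := by ring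
      _ ≤ 1 * (Y * W ^ (1 / s)) := mul_le_mul_of_nonneg_right h3 (by positivity)
      _ = Y * W ^ (1 / s) := one_mul _
  have hbad : ∑ ω, wb ω * (G ω * X ω) ≤ Y * W ^ (1 / s) * mJ ^ (1 - 1 / s) := by
    have h1 := hHO Ω wb (fun ω => G ω ^ s) (fun ω => ‖bs F J ω‖ ^ (2 * s)) (1 - 1 / s) hwb0
      (fun ω => Real.rpow_nonneg (hG0 ω) _) (fun ω => Real.rpow_nonneg (norm_nonneg _) _)
      hlam hlam1
    simp only [sub_sub_cancel] at h1
    simp_rw [hXeq] at h1
    have h2 : ∀ ω, (G ω ^ s) ^ (1 / s) = G ω := by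
      intro ω
      rw [← Real.rpow_mul (hG0 ω)]
      have : s * (1 / s) = 1 := by field_simp
      rw [this, Real.rpow_one]
    simp_rw [h2] at h1
    refine h1.trans ?_
    apply mul_le_mul hGs1 _ (Real.rpow_nonneg (sum_nonneg fun ω _ => mul_nonneg (hwb0 ω)
        (Real.rpow_nonneg (norm_nonneg _) _)) _) (by positivity)
    apply Real.rpow_le_rpow (sum_nonneg fun ω _ => mul_nonneg (hwb0 ω)
        (Real.rpow_nonneg (norm_nonneg _) _)) _ hlam
    exact hwbs _ fun ω => Real.rpow_nonneg (norm_nonneg _) _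
  have htot : ∑ ω, w ω * (G ω * X ω) ≤ 3 * Y * W ^ (1 / s) * mJ ^ (1 - 1 / s) := by
    have h1 : ∀ ω, w ω * (G ω * X ω) ≤ 2 * Y * (w ω * X ω) + wb ω * (G ω * X ω) := by
      intro ω
      by_cases hω : ω ∈ Bad
      · have h2 : wb ω = w ω := by
          simp only [hwb, if_pos hω]
        rw [h2]
        have := mul_nonneg (mul_nonneg (by norm_num : (0 : ℝ) ≤ 2) hY0.le)
          (mul_nonneg (hw ω) (hX0 ω))
        linarith
      · have h2 : wb ω = 0 := by
          simp only [hwb, if_neg hω]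
        have h3 : G ω ≤ 2 * Y := by
          by_contra h4
          exact hω (mem_filter.2 ⟨mem_univ _, not_le.1 h4⟩)
        rw [h2, zero_mul, add_zero]
        calc w ω * (G ω * X ω) = G ω * (w ω * X ω) := by ring
          _ ≤ 2 * Y * (w ω * X ω) := mul_le_mul_of_nonneg_right h3 (mul_nonneg (hw ω) (hX0 ω))
    calc ∑ ω, w ω * (G ω * X ω) ≤ ∑ ω, (2 * Y * (w ω * X ω) + wb ω * (G ω * X ω)) :=
          sum_le_sum fun ω _ => h1 ω
      _ = 2 * Y * ∑ ω, w ω * X ω + ∑ ω, wb ω * (G ω * X ω) := by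
          rw [sum_add_distrib, mul_sum]
      _ ≤ 2 * Y * (W ^ (1 / s) * mJ ^ (1 - 1 / s)) + Y * W ^ (1 / s) * mJ ^ (1 - 1 / s) :=
          add_le_add (mul_le_mul_of_nonneg_left hgood (by positivity)) hbad
      _ = 3 * Y * W ^ (1 / s) * mJ ^ (1 - 1 / s) := by ring
  rw [hor]
  refine htot.trans ?_
  have hmJle : mJ ^ (1 - 1 / s) ≤ (Real.exp L * ((p : ℝ) ^ (B - b)) ^ s * W) ^ (1 - 1 / s) :=
    Real.rpow_le_rpow hmJ0 (hms b hbB η) hlam
  calc 3 * Y * W ^ (1 / s) * mJ ^ (1 - 1 / s)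
      ≤ 3 * Y * W ^ (1 / s) * (Real.exp L * ((p : ℝ) ^ (B - b)) ^ s * W) ^ (1 - 1 / s) :=
        mul_le_mul_of_nonneg_left hmJle (by positivity)
    _ = Real.exp (L - (L / s - Real.log 3)) * (Y ^ (1 : ℝ) * ((p : ℝ) ^ (B - b)) ^ (s - 1)) * W := by
        rw [Real.mul_rpow (by positivity) hW0, Real.mul_rpow (Real.exp_pos _).le (by positivity),
          ← Real.exp_mul, ← Real.rpow_mul (by positivity : (0 : ℝ) ≤ (p : ℝ) ^ (B - b)),
          Real.rpow_one]
        have h1 : s * (1 - 1 / s) = s - 1 := by field_simp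
        rw [h1]
        have h2 : Real.exp (L - (L / s - Real.log 3)) = 3 * Real.exp (L * (1 - 1 / s)) := by
          have : L - (L / s - Real.log 3) = Real.log 3 + L * (1 - 1 / s) := by ring
          rw [this, Real.exp_add, Real.exp_log (by norm_num)]
        rw [h2]
        have h6 : W = W ^ (1 / s) * W ^ (1 - 1 / s) := by
          rw [← Real.rpow_add' hW0 (by norm_num)]
          norm_num
        nth_rewrite 3 [h6]
        ring

end Pool.Agent.H62.VM
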