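import Pool.Agent.H62.VM.Common
import Pool.Agent.H62.VM.TU

/-!
# RC: the recursion in the exponent
-/

set_option autoImplicit false

open Finset Polynomial

namespace Pool.Agent.H62.VM

open Pool.Agent.H22.VM

theorem KK_three {k : ℕ} (hk : 3 ≤ k) : 6 ≤ KK k := by
  unfold KK
  have h1 : (3 : ℝ) ≤ k := by exact_mod_cast hk
  nlinarith

section

variable {ι Ω : Type} [Fintype Ω] {p B : ℕ} {w : Ω → ℝ} {R : Finset ι} {r : ι → ℤ} {F : ι → Ω → ℂ}

theorem norm_bs_le (hp : 1 < p) (hF : ∀ i ∈ R, ∀ ω, ‖F i ω‖ ≤ 1) (hinj : Set.InjOn r R)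
    (hr : ∀ i ∈ R, 0 ≤ r i ∧ r i < (p : ℤ) ^ B) {a : ℕ} (ha : a ≤ B) (ξ : ℤ) (ω : Ω) :
    ‖bs F (cls p R r a ξ) ω‖ ≤ (p : ℝ) ^ (B - a) := by
  unfold bs
  calc ‖∑ i ∈ cls p R r a ξ, F i ω‖ ≤ ∑ i ∈ cls p R r a ξ, ‖F i ω‖ := norm_sum_le _ _
    _ ≤ ∑ i ∈ cls p R r a ξ, (1 : ℝ) := sum_le_sum fun i hi => hF i (mem_filter.1 hi).1 ω
    _ = ((cls p R r a ξ).card : ℝ) := by simp
    _ ≤ ((p ^ (B - a) : ℕ) : ℝ) := by exact_mod_cast card_cls hp ha R r hinj hr ξ
    _ = (p : ℝ) ^ (B - a) := by push_cast; rfl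

/-- the admissible exponents -/
def Adm (p B : ℕ) (w : Ω → ℝ) (R : Finset ι) (r : ι → ℤ) (F : ι → Ω → ℂ) (s : ℝ) : Set ℝ :=
  {L | 0 ≤ L ∧ ∀ a ≤ B, ∀ ξ : ℤ, mo w F s (cls p R r a ξ) ≤
    Real.exp L * ((p : ℝ) ^ (B - a)) ^ s * ∑ ω, w ω}

theorem adm_trivial (hp : 1 < p) (hw : ∀ ω, 0 ≤ w ω) (hF : ∀ i ∈ R, ∀ ω, ‖F i ω‖ ≤ 1)
    (hinj : Set.InjOn r R) (hr : ∀ i ∈ R, 0 ≤ r i ∧ r i < (p : ℤ) ^ B) {s : ℝ} (hs : 0 ≤ s) :
    s * B * Real.log p ∈ Adm p B w R r F s := by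
  have hP1 : (1 : ℝ) < p := by exact_mod_cast hp
  have hP0 : (0 : ℝ) < p := by linarith
  have hlog : 0 ≤ Real.log p := Real.log_nonneg hP1.le
  refine ⟨by positivity, ?_⟩
  intro a ha ξ
  unfold mo
  rw [mul_sum]
  refine sum_le_sum fun ω _ => ?_
  have h1 := norm_bs_le hp hF hinj hr ha ξ ω
  have h2 : ‖bs F (cls p R r a ξ) ω‖ ^ (2 * s) ≤ ((p : ℝ) ^ (B - a)) ^ (2 * s) :=
    Real.rpow_le_rpow (norm_nonneg _) h1 (by positivity)
  have h3 : ((p : ℝ) ^ (B - a)) ^ (2 * s) = ((p : ℝ) ^ (B - a)) ^ s * ((p : ℝ) ^ (B - a)) ^ s := by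
    rw [two_mul, Real.rpow_add (by positivity)]
  have h4 : ((p : ℝ) ^ (B - a)) ^ s ≤ Real.exp (s * B * Real.log p) := by
    rw [Real.rpow_def_of_pos (by positivity), Real.log_pow]
    apply Real.exp_le_exp.2
    have h5 : ((B - a : ℕ) : ℝ) ≤ B := by
      exact_mod_cast Nat.sub_le B a
    calc ((B - a : ℕ) : ℝ) * Real.log p * s ≤ B * Real.log p * s := by gcongr
      _ = s * B * Real.log p := by ring
  calc w ω * ‖bs F (cls p R r a ξ) ω‖ ^ (2 * s)
      ≤ w ω * (((p : ℝ) ^ (B - a)) ^ s * ((p : ℝ) ^ (B - a)) ^ s) := by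
        rw [← h3]
        exact mul_le_mul_of_nonneg_left h2 (hw ω)
    _ ≤ w ω * (Real.exp (s * B * Real.log p) * ((p : ℝ) ^ (B - a)) ^ s) := by
        apply mul_le_mul_of_nonneg_left _ (hw ω)
        exact mul_le_mul_of_nonneg_right h4 (Real.rpow_nonneg (by positivity) _)
    _ = _ := by ring

/-- the infimum is attained -/
theorem adm_inf {s : ℝ} (hne : (Adm p B w R r F s).Nonempty) (hw : ∀ ω, 0 ≤ w ω) :
    sInf (Adm p B w R r F s) ∈ Adm p B w R r F s := by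
  have hbd : BddBelow (Adm p B w R r F s) := ⟨0, fun L hL => hL.1⟩
  refine ⟨le_csInf hne fun L hL => hL.1, ?_⟩
  intro a ha ξ
  set c : ℝ := ((p : ℝ) ^ (B - a)) ^ s * ∑ ω, w ω with hc
  have hc0 : 0 ≤ c :=
    mul_nonneg (Real.rpow_nonneg (by positivity) _) (sum_nonneg fun ω _ => hw ω)
  set Λ := sInf (Adm p B w R r F s) with hΛ
  have h1 : ∀ δ : ℝ, 0 < δ → mo w F s (cls p R r a ξ) ≤ Real.exp (Λ + δ) * c := by
    intro δ hδ
    obtain ⟨L, hL, hLδ⟩ := exists_lt_of_csInf_lt hne (show sInf (Adm p B w R r F s) < Λ + δ by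
      rw [← hΛ]; linarith)
    refine (hL.2 a ha ξ).trans ?_
    rw [mul_assoc, ← hc]
    exact mul_le_mul_of_nonneg_right (Real.exp_le_exp.2 hLδ.le) hc0
  have h2 : Filter.Tendsto (fun δ : ℝ => Real.exp (Λ + δ) * c) (nhdsWithin 0 (Set.Ioi 0))
      (nhds (Real.exp (Λ + 0) * c)) := by
    have : Continuous fun δ : ℝ => Real.exp (Λ + δ) * c := by fun_prop
    exact (this.tendsto 0).mono_left nhdsWithin_le_nhds
  have h3 := ge_of_tendsto h2 (by
    filter_upwards [self_mem_nhdsWithin] with δ hδ using h1 δ hδ)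
  rw [add_zero] at h3
  rw [mul_assoc, ← hc]
  exact h3

end

theorem rc (hCO : T_CO) (hF1 : T_F1) (hPR : T_PR) (hMB : T_MB) (hSB : T_SB) (hCL : T_CL)
    (hTN : T_TN) (hTU : T_TU) (hTA : T_TA) : T_RC := by
  classical
  intro k p hk hp hkp hp32
  have hp1 : 1 < p := hp.one_lt
  have hP1 : (1 : ℝ) < p := by exact_mod_cast hp1
  have hlogp : 1 ≤ Real.log p := by
    rw [Real.le_log_iff_exp_le (by linarith)]
    have h1 : (32 : ℝ) < p := by exact_mod_cast hp32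
    have h2 := Real.exp_one_lt_d9
    linarith
  have hk1 : (1 : ℝ) ≤ k := by
    have : 1 ≤ k := by omega
    exact_mod_cast this
  obtain ⟨σ, hσ1, hσ, hpar⟩ := hPR k (KK k - 1) (by omega) (Or.inr ⟨hk, le_rfl⟩) (by linarith)
  obtain ⟨c', C', hc0, hc1, hC'0, hflat⟩ := flats hF1 (p := p) (k := k) hp hσ1 (fun l hl hlk => by
    obtain ⟨h1, h2⟩ := hσ l hl hlk
    exact hTA l p hl hp (hlk.trans hkp) hp32 (σ l) h1 h2)
  obtain ⟨γ, hγ1, hγ0, hγ2, ρ, η, ε, hη, hε, hPar⟩ := hpar c' hc1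
  set s₀ : ℝ := KK k - 1 with hs₀
  set s₁ : ℝ := s₀ + ε with hs₁
  have hs₀5 : 5 ≤ s₀ := by
    have := KK_three hk
    linarith
  obtain ⟨C₁, hC₁, hcore⟩ :=
    hCO p k σ ρ γ η s₁ c' C' hp hkp hp32 (by omega) hc0 hγ1 hγ2.le hη hC'0 hflat
  have hs₁0 : 0 < s₁ := by linarith
  refine ⟨s₁, s₁ * (Real.log 3 + C₁ * (2 + 4 * s₁)), γ, by linarith, ?_, hγ0, hγ2, ?_⟩
  · have := Real.log_nonneg (by norm_num : (1 : ℝ) ≤ 3)
    positivity
  intro B ι Ω _ w R r F hB hw hWpos hInv hF hinj hr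
  set W : ℝ := ∑ ω, w ω with hW
  have hne : ∀ s : ℝ, 0 ≤ s → (Adm p B w R r F s).Nonempty := fun s hs =>
    ⟨_, adm_trivial hp1 hw hF hinj hr hs⟩
  have hatt : ∀ s : ℝ, 0 ≤ s → sInf (Adm p B w R r F s) ∈ Adm p B w R r F s := fun s hs =>
    adm_inf (hne s hs) hw
  refine ⟨fun s => sInf (Adm p B w R r F s), fun s => Real.sInf_nonneg fun L hL => hL.1,
    ⟨s₁ * B * Real.log p, ?_⟩, ?_, ?_⟩
  · intro s hs1 hs2
    refine (csInf_le ⟨0, fun L hL => hL.1⟩ (adm_trivial hp1 hw hF hinj hr (by linarith))).trans ?_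
    have h1 : 0 ≤ Real.log p := by linarith
    have h2 : (0 : ℝ) ≤ B := Nat.cast_nonneg B
    exact mul_le_mul_of_nonneg_right (mul_le_mul_of_nonneg_right hs2 h2) h1
  · intro s hs1 hs2
    have h1 := (hatt s (by linarith)).2 0 (Nat.zero_le B) 0
    rw [(hCL p hp1 ι R r).2.2.2.1 0, Nat.sub_zero] at h1
    exact h1
  · intro s s' hs1 hss' hs'2
    dsimp only
    have hs0 : 0 < s := by linarith
    have hs'0 : 0 < s' := by linarith
    have hs2 : s ≤ s₁ := by linarith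
    set Λ : ℝ := sInf (Adm p B w R r F s) with hΛ
    set L' : ℝ := sInf (Adm p B w R r F s') with hL'
    have hL'adm : L' ∈ Adm p B w R r F s' := hatt s' hs'0.le
    have hL'0 : 0 ≤ L' := hL'adm.1
    have hd : 0 < s' - s := by linarith
    set t : ℝ := L' / (s' - s) with ht
    have ht0 : 0 ≤ t := div_nonneg hL'0 hd.le
    have hlog3 : 0 ≤ Real.log 3 := Real.log_nonneg (by norm_num)
    set C : ℝ := s₁ * (Real.log 3 + C₁ * (2 + 4 * s₁)) with hC
    have hC0 : 0 ≤ C := by positivity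
    set Λ₀ : ℝ := C * (1 + t) ^ γ with hΛ₀
    have hΛ₀0 : 0 ≤ Λ₀ := by positivity
    by_contra hcon
    push Not at hcon
    -- a block exceeds
    have hex : ∃ a ≤ B, ∃ ξ : ℤ, Real.exp Λ₀ * ((p : ℝ) ^ (B - a)) ^ s * W <
        mo w F s (cls p R r a ξ) := by
      by_contra h1
      push Not at h1
      have h2 : Λ₀ ∈ Adm p B w R r F s := ⟨hΛ₀0, h1⟩
      have h3 : Λ ≤ Λ₀ := csInf_le ⟨0, fun L hL => hL.1⟩ h2
      linarith
    have hfine : ∀ s : ℝ, 0 < s → ∀ ζ : ℤ, mo w F s (cls p R r B ζ) ≤ W := by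
      intro s hs ζ
      unfold mo
      refine sum_le_sum fun ω _ => ?_
      have h1 := norm_bs_le hp1 hF hinj hr le_rfl ζ ω
      rw [Nat.sub_self, pow_zero] at h1
      calc w ω * ‖bs F (cls p R r B ζ) ω‖ ^ (2 * s) ≤ w ω * 1 := by
            apply mul_le_mul_of_nonneg_left _ (hw ω)
            exact Real.rpow_le_one (norm_nonneg _) h1 (by positivity)
        _ = w ω := mul_one _
    obtain ⟨a₀, ξ₁, L, ha₀, hLΛ, heq₁, hb⟩ := hMB p B s W Λ₀ hp1 hWpos hΛ₀0 hs0 ι Ω w R r F hw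
      (hfine s hs0) hex
    have hL0 : 0 ≤ L := hΛ₀0.trans hLΛ.le
    -- normalise the residue
    set ξ₀ : ℤ := ξ₁ % (p : ℤ) ^ a₀ with hξ₀
    have hpa : (0 : ℤ) < (p : ℤ) ^ a₀ := by
      have : (0 : ℤ) < p := by exact_mod_cast hp.pos
      positivity
    have hξ0 : 0 ≤ ξ₀ := Int.emod_nonneg _ hpa.ne'
    have hξ1 : ξ₀ < (p : ℤ) ^ a₀ := Int.emod_lt_of_pos _ hpa
    have hcls : cls p R r a₀ ξ₀ = cls p R r a₀ ξ₁ := by
      apply (hCL p hp1 ι R r).2.2.1
      rw [hξ₀]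
      exact (Int.dvd_sub_self_of_emod_eq rfl) |> fun h => by
        have := dvd_neg.2 h
        rwa [neg_sub] at this
    have heq : Real.exp L * ((p : ℝ) ^ (B - a₀)) ^ s * W ≤ mo w F s (cls p R r a₀ ξ₀) := by
      rw [hcls, heq₁]
    set B' : ℕ := B - a₀ with hB'
    have hB'1 : 1 ≤ B' := by omega
    have hk0 : 0 < k := by omega
    -- the stopping scale
    set u : ℝ := 4 * s * L' / (k * Real.log p * (s' - s)) with hu
    have hu0 : 0 ≤ u := by positivity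
    set b₂ : ℕ := (B' + k - 1) / k with hb₂
    set b₁ : ℕ := min b₂ ⌈u⌉₊ with hb₁
    have hb₂a : k * b₂ ≤ B' + k - 1 := Nat.mul_div_le _ _
    have hb₂b : B' ≤ k * b₂ := by
      have h1 := Nat.lt_mul_div_succ (B' + k - 1) hk0
      rw [← hb₂, Nat.mul_add, Nat.mul_one] at h1
      omega
    have hr' : ∀ i ∈ cls p R r a₀ ξ₀, 0 ≤ (r i - ξ₀) / (p : ℤ) ^ a₀ ∧
        (r i - ξ₀) / (p : ℤ) ^ a₀ < (p : ℤ) ^ B' := by
      intro i hi
      obtain ⟨hiR, hdv⟩ := mem_filter.1 hi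
      obtain ⟨h1, h2⟩ := hr i hiR
      obtain ⟨m, hm⟩ := hdv
      rw [hm, Int.mul_ediv_cancel_left _ hpa.ne']
      constructor
      · by_contra h3
        push Not at h3
        have h4 : m ≤ -1 := by omega
        have h5 : (p : ℤ) ^ a₀ * m ≤ (p : ℤ) ^ a₀ * (-1) := mul_le_mul_of_nonneg_left h4 hpa.le
        rw [← hm] at h5
        linarith
      · have h3 : (p : ℤ) ^ a₀ * m < (p : ℤ) ^ a₀ * (p : ℤ) ^ B' := by
          rw [← pow_add, ← hm]
          have h4 : a₀ + B' = B := by omega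
          rw [h4]
          linarith
        exact lt_of_mul_lt_mul_left h3 hpa.le
    have hinj' : Set.InjOn (fun i => (r i - ξ₀) / (p : ℤ) ^ a₀) (cls p R r a₀ ξ₀) := by
      intro i hi j hj hij
      obtain ⟨hiR, hdvi⟩ := mem_filter.1 (mem_coe.1 hi)
      obtain ⟨hjR, hdvj⟩ := mem_filter.1 (mem_coe.1 hj)
      dsimp only at hij
      have h1 := Int.ediv_mul_cancel hdvi
      have h2 := Int.ediv_mul_cancel hdvj
      rw [hij, h2] at h1
      have h3 : r i = r j := by linarith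
      exact hinj (mem_coe.2 hiR) (mem_coe.2 hjR) h3
    have hF' : ∀ i ∈ cls p R r a₀ ξ₀, ∀ ω, ‖F i ω‖ ≤ 1 := fun i hi ω =>
      hF i (mem_filter.1 hi).1 ω
    have hms' : ∀ a ≤ B', ∀ ξ : ℤ, mo w F s' (cls p (cls p R r a₀ ξ₀)
        (fun i => (r i - ξ₀) / (p : ℤ) ^ a₀) a ξ) ≤
          Real.exp L' * ((p : ℝ) ^ (B' - a)) ^ s' * W := by
      intro a ha ξ
      rw [(hCL p hp1 ι R r).1, hB', Nat.sub_sub]
      exact hL'adm.2 (a₀ + a) (by omega) _
    have hfin := core_block hSB hCL hcore hp1 (xT := L / s - Real.log 3) (b₁ := b₁) (a₀ := a₀)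
      (ξ₀ := ξ₀) (hPar s hs1 hs2) hs2 hWpos hL0 (by linarith) hw hInv ha₀.le hb (hfine s hs0) heq
      (fun b hb => by
        have h0 : b < b₂ := lt_of_lt_of_le hb (min_le_left _ _)
        have h1 : k * (b + 1) ≤ k * b₂ := Nat.mul_le_mul_left k h0
        rw [Nat.mul_add, Nat.mul_one] at h1
        omega)
      (fun i1 i2 i3 a b ha1 ha2 hb1 hb2 hb3 hab => by
        by_cases hkb : B' ≤ k * b
        · have h1 := hTN p k B' a b s W L hp hkp (by omega) ha1 ha2 hb3 hkb hWpos.le (by linarith)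
            ι Ω w _ _ F hw i1 i2 i3
          exact BL_mono hWpos.le (by linarith) h1
        · push Not at hkb
          have h1 : b < b₂ := by
            by_contra h2
            push Not at h2
            have h3 : k * b₂ ≤ k * b := Nat.mul_le_mul_left k h2
            omega
          have h2 : ⌈u⌉₊ ≤ b := by
            rcases min_le_iff.1 hb2 with h3 | h3
            · omega
            · exact h3
          have h3 : u ≤ b := Nat.ceil_le.1 h2
          have hcond : L' / s' ≤ (k * b / 4 : ℝ) * Real.log p * (1 / s - 1 / s') := by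
            have hkl : 0 < (k : ℝ) * Real.log p * (s' - s) := by positivity
            rw [hu, div_le_iff₀ hkl] at h3
            have h4 : 1 / s - 1 / s' = (s' - s) / (s * s') := by
              field_simp
            rw [h4, div_le_iff₀ hs'0]
            have h5 : (k * b / 4 : ℝ) * Real.log p * ((s' - s) / (s * s')) * s' =
                (b * (k * Real.log p * (s' - s))) / (4 * s) := by
              field_simp
            rw [h5, le_div_iff₀ (by positivity)]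
            linarith
          exact hTU p k B' a b s s' L L' hp hkp hk hB'1 ha1 hb1 hab hkb.le (by linarith) hss' hL0
            hL'0 hcond ι Ω w _ _ F hw i1 hF' hinj' hr' i2 hms')
    -- conclusion
    have hb₁u : (b₁ : ℝ) + 1 ≤ (2 + 4 * s₁) * (1 + t) := by
      have h1 : (b₁ : ℝ) ≤ ⌈u⌉₊ := by exact_mod_cast min_le_right _ _
      have h2 : (⌈u⌉₊ : ℝ) < u + 1 := Nat.ceil_lt_add_one hu0
      have h3 : u ≤ 4 * s₁ * t := by
        have hkl : 1 ≤ (k : ℝ) * Real.log p := by nlinarith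
        rw [hu, ht]
        calc 4 * s * L' / (k * Real.log p * (s' - s))
            = 4 * s * (L' / (s' - s)) / (k * Real.log p) := by
              field_simp
          _ ≤ 4 * s * (L' / (s' - s)) / 1 := by
              apply div_le_div_of_nonneg_left _ one_pos hkl
              positivity
          _ ≤ 4 * s₁ * (L' / (s' - s)) := by
              rw [div_one]
              apply mul_le_mul_of_nonneg_right _ ht0
              linarith
      nlinarith
    have h1t : 1 ≤ (1 + t) ^ γ := Real.one_le_rpow (by linarith) hγ0.le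
    have h2 : ((b₁ : ℝ) + 1) ^ γ ≤ (2 + 4 * s₁) * (1 + t) ^ γ := by
      calc ((b₁ : ℝ) + 1) ^ γ ≤ ((2 + 4 * s₁) * (1 + t)) ^ γ :=
            Real.rpow_le_rpow (by positivity) hb₁u hγ0.le
        _ = (2 + 4 * s₁) ^ γ * (1 + t) ^ γ := Real.mul_rpow (by positivity) (by positivity)
        _ ≤ (2 + 4 * s₁) ^ (1 : ℝ) * (1 + t) ^ γ := by
            apply mul_le_mul_of_nonneg_right _ (by positivity)
            exact Real.rpow_le_rpow_of_exponent_le (by linarith) hγ2.le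
        _ = (2 + 4 * s₁) * (1 + t) ^ γ := by rw [Real.rpow_one]
    have h3 : L / s ≤ Real.log 3 * (1 + t) ^ γ + C₁ * ((2 + 4 * s₁) * (1 + t) ^ γ) := by
      have h4 := mul_le_mul_of_nonneg_left h2 hC₁
      have h5 : Real.log 3 ≤ Real.log 3 * (1 + t) ^ γ := le_mul_of_one_le_right hlog3 h1t
      linarith
    rw [div_le_iff₀ hs0] at h3
    have h4 : L ≤ Λ₀ := by
      rw [hΛ₀, hC]
      calc L ≤ (Real.log 3 * (1 + t) ^ γ + C₁ * ((2 + 4 * s₁) * (1 + t) ^ γ)) * s := h3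
        _ ≤ (Real.log 3 * (1 + t) ^ γ + C₁ * ((2 + 4 * s₁) * (1 + t) ^ γ)) * s₁ :=
            mul_le_mul_of_nonneg_left hs2 (by positivity)
        _ = s₁ * (Real.log 3 + C₁ * (2 + 4 * s₁)) * (1 + t) ^ γ := by ring
    linarith

end Pool.Agent.H62.VM
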