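import Pool.Agent.H62.VM.Common

/-!
# TA: Theorem A
-/

set_option autoImplicit false

open Finset Polynomial

namespace Pool.Agent.H62.VM

open Pool.Agent.H22.VM

theorem KK_mono_two {k : ℕ} (hk : 2 ≤ k) : 3 ≤ KK k := by
  unfold KK
  have h1 : (2 : ℝ) ≤ k := by exact_mod_cast hk
  nlinarith

theorem ta (hCO : T_CO) (hF1 : T_F1) (hPR : T_PR) (hMB : T_MB) (hSB : T_SB) (hCL : T_CL)
    (hTN : T_TN) : T_TA := by
  intro k
  induction k using Nat.strong_induction_on with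
  | _ k ih =>
  intro p hk hp hkp hp32 s hs1 hs2
  have hp1 : 1 < p := hp.one_lt
  have hs2' : 2 < s := by
    have := KK_mono_two hk
    linarith
  have hs0 : 0 < s := by linarith
  obtain ⟨σ, hσ1, hσ, hpar⟩ := hPR k s hk (Or.inl hs1) hs2
  obtain ⟨c', C', hc0, hc1, hC'0, hflat⟩ := flats hF1 (p := p) (k := k) hp hσ1 (fun l hl hlk => by
    obtain ⟨h1, h2⟩ := hσ l hl hlk
    exact ih l hlk p hl hp (hlk.trans hkp) hp32 (σ l) h1 h2)
  obtain ⟨γ, hγ1, hγ0, hγ2, ρ, η, ε, hη, hε, hPar⟩ := hpar c' hc1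
  obtain ⟨C₁, hC₁, hcore⟩ := hCO p k σ ρ γ η s c' C' hp hkp hp32 hk hc0 hγ1 hγ2.le hη hC'0 hflat
  have hPs : Par k σ ρ γ η s := hPar s le_rfl (by linarith)
  refine ⟨3 * s * C₁, γ, by positivity, hγ0, hγ2, ?_⟩
  intro n ι Ω _ w R r F M hw hInv hM
  have hM0 : 0 ≤ M := (mo_nonneg hw F s _).trans (hM 0)
  set Λ : ℝ := 3 * s * C₁ * (n : ℝ) ^ γ with hΛ
  have hΛ0 : 0 ≤ Λ := by positivity
  -- the case of a positive bound
  have main : ∀ M' : ℝ, 0 < M' → (∀ ζ : ℤ, mo w F s (cls p R r n ζ) ≤ M') →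
      mo w F s R ≤ Real.exp Λ * ((p : ℝ) ^ n) ^ s * M' := by
    intro M' hM'0 hM'
    by_contra hcon
    push Not at hcon
    have hR : cls p R r 0 0 = R := (hCL p hp1 ι R r).2.2.2.1 0
    obtain ⟨a₀, ξ₀, L, ha₀, hL, heq, hb⟩ := hMB p n s M' Λ hp1 hM'0 hΛ0 hs0 ι Ω w R r F hw hM'
      ⟨0, Nat.zero_le n, 0, by rw [hR, Nat.sub_zero]; exact hcon⟩
    have hL0 : 0 ≤ L := hΛ0.trans hL.le
    set n' : ℕ := n - a₀ with hn'
    have hn'1 : 1 ≤ n' := by omega
    have hk0 : 0 < k := by omega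
    set b₁ : ℕ := (n' + k - 1) / k with hb₁
    have hb₁a : k * b₁ ≤ n' + k - 1 := Nat.mul_div_le _ _
    have hb₁b : n' ≤ k * b₁ := by
      have h1 := Nat.lt_mul_div_succ (n' + k - 1) hk0
      rw [← hb₁, Nat.mul_add, Nat.mul_one] at h1
      omega
    have hfin := core_block hSB hCL hcore hp1 (xT := L / s) hPs le_rfl hM'0 hL0 le_rfl hw hInv
      ha₀.le hb hM' heq.ge (b₁ := b₁) (fun b hb => by
        have h1 : k * (b + 1) ≤ k * b₁ := Nat.mul_le_mul_left k hb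
        rw [Nat.mul_add, Nat.mul_one] at h1
        omega)
      (fun i1 i2 i3 a b ha1 ha2 hb1 hb2 hb3 hab => by
        have h1 : n' ≤ k * b := hb₁b.trans (Nat.mul_le_mul_left k hb2)
        exact hTN p k n' a b s M' L hp hkp (by omega) ha1 ha2 hb3 h1 hM'0.le (by linarith)
          ι Ω w _ _ F hw i1 i2 i3)
    have h1 : ((b₁ : ℝ) + 1) ≤ 3 * n := by
      have h2 : b₁ + 1 ≤ 3 * n := by
        have h3 : b₁ ≤ n' := by
          have h4 : b₁ ≤ k * b₁ := Nat.le_mul_of_pos_left _ hk0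
          rcases Nat.eq_zero_or_pos b₁ with h5 | h5
          · omega
          · have h6 : 2 * b₁ ≤ k * b₁ := Nat.mul_le_mul_right _ hk
            have h7 : k * b₁ ≤ n' + k - 1 := hb₁a
            -- `k (b₁ - 1) ≤ n' - 1`
            have h8 : k * (b₁ - 1) + k = k * b₁ := by
              rw [← Nat.mul_succ]
              congr 1
              omega
            have h9 : b₁ - 1 ≤ k * (b₁ - 1) := Nat.le_mul_of_pos_left _ hk0
            omega
        omega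
      exact_mod_cast h2
    have hn0 : (0 : ℝ) ≤ n := Nat.cast_nonneg n
    have h2 : ((b₁ : ℝ) + 1) ^ γ ≤ 3 * (n : ℝ) ^ γ := by
      calc ((b₁ : ℝ) + 1) ^ γ ≤ (3 * (n : ℝ)) ^ γ := Real.rpow_le_rpow (by positivity) h1 hγ0.le
        _ = 3 ^ γ * (n : ℝ) ^ γ := Real.mul_rpow (by norm_num) hn0
        _ ≤ 3 ^ (1 : ℝ) * (n : ℝ) ^ γ := by
            apply mul_le_mul_of_nonneg_right _ (Real.rpow_nonneg hn0 _)
            exact Real.rpow_le_rpow_of_exponent_le (by norm_num) hγ2.le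
        _ = 3 * (n : ℝ) ^ γ := by rw [Real.rpow_one]
    have h3 : L / s ≤ C₁ * (3 * (n : ℝ) ^ γ) := hfin.trans (mul_le_mul_of_nonneg_left h2 hC₁)
    rw [div_le_iff₀ hs0] at h3
    have h4 : L ≤ Λ := by
      rw [hΛ]
      linarith
    linarith
  -- the limit
  rcases hM0.eq_or_lt with h0 | h0
  · have h1 : ∀ t : ℝ, 0 < t → mo w F s R ≤ Real.exp Λ * ((p : ℝ) ^ n) ^ s * t := fun t ht =>
      main t ht fun ζ => (hM ζ).trans (by rw [← h0]; exact ht.le)
    rw [← h0, mul_zero]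
    have hA : 0 < Real.exp Λ * ((p : ℝ) ^ n) ^ s := by
      have : (0 : ℝ) < p := by exact_mod_cast hp.pos
      positivity
    by_contra hcon
    push Not at hcon
    have h2 := h1 (mo w F s R / (Real.exp Λ * ((p : ℝ) ^ n) ^ s) / 2) (by positivity)
    have h3 : Real.exp Λ * ((p : ℝ) ^ n) ^ s * (mo w F s R / (Real.exp Λ * ((p : ℝ) ^ n) ^ s) / 2) =
        mo w F s R / 2 := by
      field_simp
    rw [h3] at h2
    linarith
  · exact main M h0 hM

end Pool.Agent.H62.VM
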