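import Pool.Agent.H22.VM.Targets

/-!
# Common lemmas for TA and RC
-/

set_option autoImplicit false

open Finset Polynomial

namespace Pool.Agent.H62.VM

open Pool.Agent.H22.VM

theorem mo_nonneg {ι Ω : Type} [Fintype Ω] {w : Ω → ℝ} (hw : ∀ ω, 0 ≤ w ω) (F : ι → Ω → ℂ) (s : ℝ)
    (A : Finset ι) : 0 ≤ mo w F s A :=
  sum_nonneg fun ω _ => mul_nonneg (hw ω) (Real.rpow_nonneg (norm_nonneg _) _)

theorem Flat_mono {p k : ℕ} {s : ℝ} {n : ℕ} {A A' : ℝ} (h : A ≤ A') (hF : Flat p k s n A) :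
    Flat p k s n A' := by
  intro ι Ω _ w R r F M hw hInv hM
  have hM0 : 0 ≤ M := (mo_nonneg hw F s _).trans (hM 0)
  refine (hF ι Ω w R r F M hw hInv hM).trans ?_
  have h1 : 0 ≤ ((p : ℝ) ^ n) ^ s := Real.rpow_nonneg (by positivity) _
  exact mul_le_mul_of_nonneg_right (mul_le_mul_of_nonneg_right h h1) hM0

theorem BL_mono {p n a b : ℕ} {s M L t x y : ℝ} {ι Ω : Type} [Fintype Ω] {w : Ω → ℝ}
    {R : Finset ι} {r : ι → ℤ} {F : ι → Ω → ℂ} (hM : 0 ≤ M) (hxy : y ≤ x)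
    (h : BL p s n w R r F M L t a b x) : BL p s n w R r F M L t a b y := by
  intro ξ η hξη
  refine (h ξ η hξη).trans ?_
  apply mul_le_mul_of_nonneg_right _ hM
  apply mul_le_mul_of_nonneg_right
  · exact Real.exp_le_exp.2 (by linarith)
  · exact mul_nonneg (Real.rpow_nonneg (by positivity) _) (Real.rpow_nonneg (by positivity) _)

/-- a common bound below one -/
theorem common_lt_one (f : ℕ → ℝ) (m : ℕ) (hf : ∀ l, l < m → f l < 1) :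
    ∃ c, 0 ≤ c ∧ c < 1 ∧ ∀ l, l < m → f l ≤ c := by
  induction m with
  | zero => exact ⟨0, le_rfl, one_pos, fun l hl => absurd hl (Nat.not_lt_zero l)⟩
  | succ m ih =>
    obtain ⟨c, h1, h2, h3⟩ := ih fun l hl => hf l (Nat.lt_succ_of_lt hl)
    refine ⟨max c (f m), h1.trans (le_max_left _ _), max_lt h2 (hf m (Nat.lt_succ_self m)), ?_⟩
    intro l hl
    rcases Nat.lt_succ_iff_lt_or_eq.1 hl with h4 | rfl
    · exact (h3 l h4).trans (le_max_left _ _)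
    · exact le_max_right _ _

theorem common_le (f : ℕ → ℝ) (m : ℕ) : ∃ c, 0 ≤ c ∧ ∀ l, l < m → f l ≤ c := by
  induction m with
  | zero => exact ⟨0, le_rfl, fun l hl => absurd hl (Nat.not_lt_zero l)⟩
  | succ m ih =>
    obtain ⟨c, h1, h3⟩ := ih
    refine ⟨max c (f m), h1.trans (le_max_left _ _), ?_⟩
    intro l hl
    rcases Nat.lt_succ_iff_lt_or_eq.1 hl with h4 | rfl
    · exact (h3 l h4).trans (le_max_left _ _)
    · exact le_max_right _ _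

/-- flat bounds of lower degree with common constants -/
theorem flats (hF1 : T_F1) {p k : ℕ} (hp : p.Prime) {σ : ℕ → ℝ} (hσ1 : σ 1 = 1)
    (h : ∀ l, 2 ≤ l → l < k → ∃ C γ : ℝ, 0 ≤ C ∧ 0 < γ ∧ γ < 1 ∧
      ∀ n : ℕ, Flat p l (σ l) n (Real.exp (C * (n : ℝ) ^ γ))) :
    ∃ c' C' : ℝ, 0 ≤ c' ∧ c' < 1 ∧ 0 ≤ C' ∧ ∀ l : ℕ, 1 ≤ l → l < k → ∀ n : ℕ,
      Flat p l (σ l) n (Real.exp (C' * (n : ℝ) ^ c')) := by
  classical
  have h' : ∀ l, ∃ C γ : ℝ, 0 ≤ C ∧ 0 < γ ∧ γ < 1 ∧ (2 ≤ l → l < k →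
      ∀ n : ℕ, Flat p l (σ l) n (Real.exp (C * (n : ℝ) ^ γ))) := by
    intro l
    by_cases hl : 2 ≤ l ∧ l < k
    · obtain ⟨C, γ, h1, h2, h3, h4⟩ := h l hl.1 hl.2
      exact ⟨C, γ, h1, h2, h3, fun _ _ => h4⟩
    · exact ⟨0, 1 / 2, le_rfl, by norm_num, by norm_num, fun h1 h2 => absurd ⟨h1, h2⟩ hl⟩
  choose C γ h1 h2 h3 h4 using h'
  obtain ⟨c', hc0, hc1, hc⟩ := common_lt_one γ k fun l _ => h3 l
  obtain ⟨C', hC0, hC⟩ := common_le C k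
  refine ⟨c', C', hc0, hc1, hC0, ?_⟩
  intro l hl hlk n
  rcases Nat.lt_or_ge l 2 with h5 | h5
  · have h6 : l = 1 := by omega
    subst h6
    rw [hσ1]
    refine Flat_mono ?_ (hF1 p n hp)
    apply Real.one_le_exp
    positivity
  · refine Flat_mono ?_ (h4 l h5 hlk n)
    apply Real.exp_le_exp.2
    rcases Nat.eq_zero_or_pos n with rfl | hn
    · have h6 : 0 < c' := (h2 l).trans_le (hc l hlk)
      rw [Nat.cast_zero, Real.zero_rpow (h2 l).ne', Real.zero_rpow h6.ne', mul_zero, mul_zero]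
    · have h7 : (1 : ℝ) ≤ n := by exact_mod_cast hn
      exact mul_le_mul (hC l hlk) (Real.rpow_le_rpow_of_exponent_le h7 (hc l hlk))
        (Real.rpow_nonneg (by positivity) _) hC0

/-- the core theorem for a block of a system -/
theorem core_block (hSB : T_SB) (hCL : T_CL) {p k : ℕ} {σ ρ : ℕ → ℝ} {γ η smax C : ℝ}
    (hcore : Core p k σ ρ γ η smax C) (hp : 1 < p) {s M L xT : ℝ} {n b₁ a₀ : ℕ} {ξ₀ : ℤ}
    (hPar : Par k σ ρ γ η s) (hs : s ≤ smax) (hM0 : 0 < M) (hL : 0 ≤ L) (hxT : xT ≤ L / s)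
    {ι Ω : Type} [Fintype Ω] {w : Ω → ℝ} {R : Finset ι} {r : ι → ℤ} {F : ι → Ω → ℂ}
    (hw : ∀ ω, 0 ≤ w ω) (hInv : Inv k (p ^ (k * n)) w R r F) (ha₀ : a₀ ≤ n)
    (hb : ∀ a ≤ n, ∀ ξ : ℤ, mo w F s (cls p R r a ξ) ≤ Real.exp L * ((p : ℝ) ^ (n - a)) ^ s * M)
    (hM : ∀ ζ : ℤ, mo w F s (cls p R r n ζ) ≤ M)
    (heq : Real.exp L * ((p : ℝ) ^ (n - a₀)) ^ s * M ≤ mo w F s (cls p R r a₀ ξ₀))
    (hb₁ : ∀ b : ℕ, b < b₁ → k * b ≤ n - a₀)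
    (hBL : Inv k (p ^ (k * (n - a₀))) w (cls p R r a₀ ξ₀) (fun i => (r i - ξ₀) / (p : ℤ) ^ a₀) F →
      (∀ a ≤ n - a₀, ∀ ξ : ℤ, mo w F s (cls p (cls p R r a₀ ξ₀)
        (fun i => (r i - ξ₀) / (p : ℤ) ^ a₀) a ξ) ≤
          Real.exp L * ((p : ℝ) ^ (n - a₀ - a)) ^ s * M) →
      (∀ ζ : ℤ, mo w F s (cls p (cls p R r a₀ ξ₀)
        (fun i => (r i - ξ₀) / (p : ℤ) ^ a₀) (n - a₀) ζ) ≤ M) →
      ∀ a b : ℕ, 1 ≤ a → a ≤ n - a₀ → 1 ≤ b → b₁ ≤ b → b ≤ n - a₀ → 4 * a ≤ 3 * k * b →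
        BL p s (n - a₀) w (cls p R r a₀ ξ₀) (fun i => (r i - ξ₀) / (p : ℤ) ^ a₀) F M L 1 a b xT) :
    xT ≤ C * ((b₁ : ℝ) + 1) ^ γ := by
  have hcl := (hCL p hp ι R r).1
  have h1 : Inv k (p ^ (k * (n - a₀))) w (cls p R r a₀ ξ₀)
      (fun i => (r i - ξ₀) / (p : ℤ) ^ a₀) F := by
    have := hSB p k (k * n) a₀ ξ₀ hp (Nat.mul_le_mul_left k ha₀) ι Ω w R r F hInv
    rwa [← Nat.mul_sub] at this
  have h2 : ∀ a ≤ n - a₀, ∀ ξ : ℤ, mo w F s (cls p (cls p R r a₀ ξ₀)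
        (fun i => (r i - ξ₀) / (p : ℤ) ^ a₀) a ξ) ≤
          Real.exp L * ((p : ℝ) ^ (n - a₀ - a)) ^ s * M := by
    intro a ha ξ
    rw [hcl, Nat.sub_sub]
    exact hb (a₀ + a) (by omega) _
  have h3 : ∀ ζ : ℤ, mo w F s (cls p (cls p R r a₀ ξ₀)
        (fun i => (r i - ξ₀) / (p : ℤ) ^ a₀) (n - a₀) ζ) ≤ M := by
    intro ζ
    rw [hcl, Nat.add_sub_cancel' ha₀]
    exact hM _
  exact hcore s M L xT (n - a₀) b₁ hPar hs hM0 hL hxT ι Ω w (cls p R r a₀ ξ₀)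
    (fun i => (r i - ξ₀) / (p : ℤ) ^ a₀) F hw h1 h2 h3 heq hb₁ (hBL h1 h2 h3)

end Pool.Agent.H62.VM
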